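import Mathlib
import Pool.Agent.H341Q.MWDefs
import Pool.Agent.H341Q.MWNon
import Pool.Agent.H341Q.MWMain

/-!
# If `W[1]` is contained in `M[1]` then the nonuniform nondeterministic ETH fails

Suppose that `p-CLIQUE` has a (nonuniform) fpt-reduction to `p-log-SAT(Γ_{1,d})`.  Then, for every
`k`, graphs on `n` vertices without a clique of size `k` are recognised by nondeterministic
circuits of size `F k * (n + 1) ^ e`, where `e` does not depend on `k`.  It follows that
unsatisfiability of `q`-CNFs with `v` variables has nondeterministic circuits of size `2 ^ (ε * v)`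
for all `q` and all `ε > 0`: the nonuniform version of the nondeterministic exponential time
hypothesis fails.

The idea: such a reduction compresses a graph on `n` vertices to `polylog n` bits, and the disjoint
union of `t` graphs on `n` vertices to at most `t` bits if `t = O(n)`.  Now the
argument of Fortnow and Santhanam applies.
-/

set_option autoImplicit false

namespace Pool.Agent.Results.MP_ddf912_lc.NondeterministicETH

open Pool.Agent.H341Q.MW

theorem result (c d : ℕ) (h : CliqueReduces c d) :
    (∃ e : ℕ, ∀ k : ℕ, ∃ F : ℕ, ∀ n : ℕ,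
      NComp (F * (n + 1) ^ e) (fun x : Sym2 (Fin n) → Bool => ¬ HasClique k x)) ∧
    ∀ (q : ℕ) (ε : ℝ), 0 < ε → ∃ C : ℝ, ∀ v : ℕ, ∃ s : ℕ, (s : ℝ) ≤ C * 2 ^ (ε * v) ∧
      NComp s (fun γ : Clause q (Fin v) → Bool => ¬ Sat γ) :=
  ⟨⟨2 * c + 5, nonclique c d h⟩, unsat c d h⟩

end Pool.Agent.Results.MP_ddf912_lc.NondeterministicETH
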